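import Pool.Agent.Helper61_LT.Stmts
import Pool.Agent.Helper61_LT.Tools

/-!
LT, module SOD: the model of the torsion given by the domination.
-/

set_option autoImplicit false

namespace Pool.Agent.LT.H17

open Matrix Pool.Agent.LT

section hg

variable {α β γ : Type} [Fintype β]

theorem Hg_mul {da : α → ℕ} {db : β → ℕ} {dg : γ → ℕ} {A : Matrix α β ℝ} {B : Matrix β γ ℝ}
    {i j : ℤ} (hA : Hg da db A i) (hB : Hg db dg B j) : Hg da dg (A * B) (i + j) := by
  intro a c h
  rw [Matrix.mul_apply] at h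
  obtain ⟨b, -, hb⟩ := Finset.exists_ne_zero_of_sum_ne_zero h
  have h1 := hA a b (left_ne_zero_of_mul hb)
  have h2 := hB b c (right_ne_zero_of_mul hb)
  omega

theorem Hg_add {da : α → ℕ} {dg : γ → ℕ} {A B : Matrix α γ ℝ}
    {i : ℤ} (hA : Hg da dg A i) (hB : Hg da dg B i) : Hg da dg (A + B) i := by
  intro a c h
  by_cases h1 : A a c = 0
  · by_cases h2 : B a c = 0
    · exact absurd (by rw [Matrix.add_apply, h1, h2, add_zero]) h
    · exact hB a c h2
  · exact hA a c h1

theorem Hg_neg {da : α → ℕ} {dg : γ → ℕ} {A : Matrix α γ ℝ}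
    {i : ℤ} (hA : Hg da dg A i) : Hg da dg (-A) i := by
  intro a c h
  exact hA a c (by simpa using h)

theorem Hg_one [DecidableEq α] (da : α → ℕ) : Hg da da (1 : Matrix α α ℝ) 0 := by
  intro a c h
  by_cases e : a = c
  · subst e; simp
  · exact absurd (Matrix.one_apply_ne e) h

end hg

section par

variable {C : Type} [Fintype C] [DecidableEq C] {dc : C → ℕ}

/-- the odd block -/
def oo (dc : C → ℕ) (A : Matrix C C ℝ) : Matrix (Od dc) (Od dc) ℝ :=
  A.submatrix Subtype.val Subtype.val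

/-- `A` preserves the parity. -/
def Pv (dc : C → ℕ) (A : Matrix C C ℝ) : Prop := ∀ a b, A a b ≠ 0 → dc a % 2 = dc b % 2

/-- `A` changes the parity. -/
def Pc (dc : C → ℕ) (A : Matrix C C ℝ) : Prop := ∀ a b, A a b ≠ 0 → dc a % 2 ≠ dc b % 2

theorem Pv_of {A : Matrix C C ℝ} {j : ℤ} (h : Hg dc dc A (2 * j)) : Pv dc A := by
  intro a b hab
  have := h a b hab
  omega

theorem Pc_of {A : Matrix C C ℝ} {j : ℤ} (h : Hg dc dc A (2 * j + 1)) : Pc dc A := by
  intro a b hab
  have := h a b hab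
  omega

theorem Pv_add {A B : Matrix C C ℝ} (hA : Pv dc A) (hB : Pv dc B) : Pv dc (A + B) := by
  intro a c h
  by_cases h1 : A a c = 0
  · by_cases h2 : B a c = 0
    · exact absurd (by rw [Matrix.add_apply, h1, h2, add_zero]) h
    · exact hB a c h2
  · exact hA a c h1

theorem Pc_add {A B : Matrix C C ℝ} (hA : Pc dc A) (hB : Pc dc B) : Pc dc (A + B) := by
  intro a c h
  by_cases h1 : A a c = 0
  · by_cases h2 : B a c = 0
    · exact absurd (by rw [Matrix.add_apply, h1, h2, add_zero]) h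
    · exact hB a c h2
  · exact hA a c h1

theorem oo_mul {A B : Matrix C C ℝ} (hB : Pv dc B) : oo dc (A * B) = oo dc A * oo dc B := by
  ext a b
  simp only [oo, Matrix.submatrix_apply, Matrix.mul_apply]
  rw [← Fintype.sum_subtype_add_sum_subtype (fun x => dc x % 2 = 1)
    (fun x => A a.1 x * B x b.1)]
  rw [add_eq_left]
  apply Finset.sum_eq_zero
  rintro ⟨x, hx⟩ -
  by_cases h : B x b.1 = 0
  · rw [h, mul_zero]
  · exact absurd ((hB x b.1 h).trans b.2) hx

theorem oe_eo {A B : Matrix C C ℝ} (hB : Pc dc B) : oe dc A * eo dc B = oo dc (A * B) := by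
  ext a b
  simp only [oo, oe, eo, Matrix.submatrix_apply, Matrix.mul_apply]
  rw [← Fintype.sum_subtype_add_sum_subtype (fun x => dc x % 2 = 0)
    (fun x => A a.1 x * B x b.1)]
  symm
  rw [add_eq_left]
  apply Finset.sum_eq_zero
  rintro ⟨x, hx⟩ -
  by_cases h : B x b.1 = 0
  · rw [h, mul_zero]
  · have h1 := hB x b.1 h
    have h2 := b.2
    omega

theorem oo_add (A B : Matrix C C ℝ) : oo dc (A + B) = oo dc A + oo dc B := rfl

theorem oo_sub (A B : Matrix C C ℝ) : oo dc (A - B) = oo dc A - oo dc B := rfl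

theorem oo_one : oo dc (1 : Matrix C C ℝ) = 1 := by
  ext a b
  simp only [oo, Matrix.submatrix_apply, Matrix.one_apply, Subtype.ext_iff]

theorem oo_zero : oo dc (0 : Matrix C C ℝ) = 0 := rfl

theorem oo_pow {A : Matrix C C ℝ} (hA : Pv dc A) (k : ℕ) : oo dc (A ^ k) = oo dc A ^ k := by
  induction k with
  | zero => rw [pow_zero, pow_zero, oo_one]
  | succ k ih => rw [pow_succ, oo_mul hA, ih, pow_succ]

end par

theorem rk_sub_mat {α β α' β' : Type} [Fintype α] [Fintype β] [Fintype α'] [Fintype β']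
    (A : Matrix α β ℝ) (f : α' → α) (g : β' → β) : (A.submatrix f g).rank ≤ A.rank := by
  classical
  have h : A.submatrix f g = (1 : Matrix α α ℝ).submatrix f id * A *
      (1 : Matrix β β ℝ).submatrix id g := by
    ext a b
    simp [Matrix.mul_apply, Matrix.one_apply]
  rw [h]
  exact (Matrix.rank_mul_le_left _ _).trans (Matrix.rank_mul_le_right _ _)

theorem det_one_add {ι : Type} [Fintype ι] [DecidableEq ι] (N : Matrix ι ι ℝ)
    (h : IsNilpotent N) : (1 + N).det = 1 := by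
  have h1 := Matrix.isNilpotent_charpoly_sub_pow_of_isNilpotent h.neg
  have h2 : (-N).charpoly = Polynomial.X ^ Fintype.card ι := by
    have := h1.eq_zero
    rwa [sub_eq_zero] at this
  have h3 : (1 + N).det = (-N).charpoly.eval 1 := by
    rw [Matrix.eval_charpoly]
    congr 1
    simp [sub_neg_eq_add]
  rw [h3, h2]
  simp

section alg

variable {C D : Type} [Fintype C] [Fintype D] [DecidableEq C] [DecidableEq D]

theorem xid (d θ : Matrix C C ℝ) (e Γ : Matrix D D ℝ) (f : Matrix D C ℝ) (h : Matrix C D ℝ)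
    (hdd : d * d = 0) : d * (θ + h * Γ * f) * d - d =
      -(d * (1 - h * f - d * θ - θ * d)) + h * (e * Γ * e - e) * f +
        (d * h - h * e) * (Γ * e * f - f) + d * h * Γ * (f * d - e * f) := by
  have h0 : ∀ x : Matrix C C ℝ, d * (d * x) = 0 := fun x => by
    rw [← Matrix.mul_assoc, hdd, Matrix.zero_mul]
  simp only [Matrix.mul_sub, Matrix.sub_mul, Matrix.mul_add, Matrix.add_mul, Matrix.mul_assoc,
    Matrix.mul_one, h0]
  abel

theorem xrk (d θ : Matrix C C ℝ) (e Γ : Matrix D D ℝ) (f : Matrix D C ℝ) (h : Matrix C D ℝ)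
    (r : ℕ) (hdd : d * d = 0) (h1 : (e * Γ * e - e).rank ≤ r) (h2 : (f * d - e * f).rank ≤ r)
    (h3 : (d * h - h * e).rank ≤ r) (h4 : (1 - h * f - d * θ - θ * d).rank ≤ r) :
    (d * (θ + h * Γ * f) * d - d).rank ≤ 4 * r := by
  rw [xid d θ e Γ f h hdd]
  have e1 : (-(d * (1 - h * f - d * θ - θ * d))).rank ≤ r := by
    rw [rk_neg]
    exact (Matrix.rank_mul_le_right _ _).trans h4
  have e2 : (h * (e * Γ * e - e) * f).rank ≤ r :=
    (Matrix.rank_mul_le_left _ _).trans ((Matrix.rank_mul_le_right _ _).trans h1)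
  have e3 : ((d * h - h * e) * (Γ * e * f - f)).rank ≤ r :=
    (Matrix.rank_mul_le_left _ _).trans h3
  have e4 : (d * h * Γ * (f * d - e * f)).rank ≤ r :=
    (Matrix.rank_mul_le_right _ _).trans h2
  have a1 := rk_add (-(d * (1 - h * f - d * θ - θ * d)) + h * (e * Γ * e - e) * f +
        (d * h - h * e) * (Γ * e * f - f)) (d * h * Γ * (f * d - e * f))
  have a2 := rk_add (-(d * (1 - h * f - d * θ - θ * d)) + h * (e * Γ * e - e) * f)
        ((d * h - h * e) * (Γ * e * f - f))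
  have a3 := rk_add (-(d * (1 - h * f - d * θ - θ * d))) (h * (e * Γ * e - e) * f)
  omega

theorem wid (d g γ : Matrix C C ℝ) (hdd : d * d = 0) :
    (d + γ) * (d + g) - (1 + d * g * γ * d + γ * g) =
      (d * g * d - d) * γ + (d * g - 1) * (1 - d * γ - γ * d) := by
  simp only [Matrix.mul_sub, Matrix.sub_mul, Matrix.mul_add, Matrix.add_mul, Matrix.mul_assoc,
    Matrix.mul_one, Matrix.one_mul, hdd]
  abel

theorem wrk (d g γ : Matrix C C ℝ) (r : ℕ) (hdd : d * d = 0)
    (h1 : (d * g * d - d).rank ≤ 4 * r) (h2 : (1 - d * γ - γ * d).rank ≤ r) :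
    ((d + γ) * (d + g) - (1 + d * g * γ * d + γ * g)).rank ≤ 5 * r := by
  rw [wid d g γ hdd]
  have e1 : ((d * g * d - d) * γ).rank ≤ 4 * r := (Matrix.rank_mul_le_left _ _).trans h1
  have e2 : ((d * g - 1) * (1 - d * γ - γ * d)).rank ≤ r :=
    (Matrix.rank_mul_le_right _ _).trans h2
  have a1 := rk_add ((d * g * d - d) * γ) ((d * g - 1) * (1 - d * γ - γ * d))
  omega

theorem bd_geom (M : Matrix C C ℝ) (R : ℝ) (hR : 2 ≤ R) (hM : Bd M R) (k : ℕ) :
    Bd (∑ j ∈ Finset.range k, M ^ j) (R ^ k) := by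
  induction k with
  | zero => simpa using bd_zero 1
  | succ k ih =>
    rw [Finset.sum_range_succ]
    have hp : 0 ≤ R ^ k := by positivity
    refine (ih.add (hM.pow k) hp hp).mono (add_nonneg hp hp) ?_
    rw [pow_succ]
    nlinarith

end alg

theorem sod : SodStmt := by
  intro n c1
  refine ⟨(2 * c1 + 11) * (n + 1) + 2 * c1 + 8, ?_⟩
  intro C D _ _ _ _ dc dd d θ γ e Γ f h S T r Q hn hgd hge hgf hgh hgθ hgγ hgΓ hdd hee hk1 hk2
    hk3 hk4 hk5 hQ bd bθ bf bh bΓ bγ bS bT hST hTS hrS hrT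
  set g : Matrix C C ℝ := θ + h * Γ * f with hg
  have hgg : Hg dc dc g 1 := by
    apply Hg_add hgθ
    have := Hg_mul (Hg_mul hgh hgΓ) hgf
    simpa using this
  have hQ0 : (0 : ℝ) ≤ Q := by linarith
  have hQ1 : (1 : ℝ) ≤ Q := by linarith
  have hpm : ∀ a b : ℕ, a ≤ b → Q ^ a ≤ Q ^ b := fun a b hab => pow_le_pow_right₀ hQ1 hab
  have hp0 : ∀ a : ℕ, (0 : ℝ) ≤ Q ^ a := fun a => by positivity
  have hp1 : ∀ a : ℕ, (1 : ℝ) ≤ Q ^ a := fun a => one_le_pow₀ hQ1
  have hdb : ∀ a : ℕ, 2 * Q ^ a ≤ Q ^ (a + 1) := fun a => by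
    rw [pow_succ]; nlinarith [hp0 a]
  have bg : Bd g (Q ^ 4) := by
    have h1 := (bh.mul bΓ).mul bf
    refine (bθ.add h1 hQ0 (by positivity)).mono (by positivity) ?_
    have h2 : 2 * Q ^ 3 ≤ Q ^ 4 := hdb 3
    have h3 := hpm 1 3 (by norm_num)
    have h4 : Q * Q * Q = Q ^ 3 := by ring
    rw [h4]
    rw [pow_one] at h3
    linarith
  set N1 : Matrix C C ℝ := d * g * γ * d with hN1
  set N2 : Matrix C C ℝ := γ * g with hN2
  set N3 : Matrix C C ℝ := (1 - N1) * N2 with hN3
  have hgN1 : Hg dc dc N1 0 := by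
    have := Hg_mul (Hg_mul (Hg_mul hgd hgg) hgγ) hgd
    simpa using this
  have hgN2 : Hg dc dc N2 2 := by
    have := Hg_mul hgγ hgg
    norm_num at this
    exact this
  have hg1 : Hg dc dc (1 - N1) 0 := by
    rw [sub_eq_add_neg]
    exact Hg_add (Hg_one dc) (Hg_neg hgN1)
  have hgN3 : Hg dc dc N3 2 := by
    have := Hg_mul hg1 hgN2
    simpa using this
  have hN11 : N1 * N1 = 0 := by
    have h1 : N1 * N1 = d * g * γ * (d * d) * g * γ * d := by
      rw [hN1]; noncomm_ring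
    rw [h1, hdd]
    simp
  have hpowg : ∀ k : ℕ, Hg dc dc (N3 ^ k) (2 * k) := by
    intro k
    induction k with
    | zero => simpa using Hg_one dc
    | succ k ih =>
      rw [pow_succ]
      have := Hg_mul ih hgN3
      push_cast
      rw [mul_add, mul_one]
      exact this
  have hN3n : N3 ^ (n + 1) = 0 := by
    ext a b
    by_contra hab
    have h1 := hpowg (n + 1) a b hab
    have h2 := hn a
    push_cast at h1
    omega
  have hinv1 : (1 - N1) * (1 + N1) = 1 := by
    have : (1 - N1) * (1 + N1) = 1 - N1 * N1 := by noncomm_ring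
    rw [this, hN11, sub_zero]
  have hinv2 : (1 + N1) * (1 - N1) = 1 := by
    have : (1 + N1) * (1 - N1) = 1 - N1 * N1 := by noncomm_ring
    rw [this, hN11, sub_zero]
  set G : Matrix C C ℝ := ∑ j ∈ Finset.range (n + 1), (-N3) ^ j with hG
  have hneg : (-N3) ^ (n + 1) = 0 := by
    rw [neg_pow, hN3n, mul_zero]
  have hG1 : G * (1 + N3) = 1 := by
    have := geom_sum_mul_neg (-N3) (n + 1)
    rw [hneg, sub_zero, sub_neg_eq_add] at this
    exact this
  have hG2 : (1 + N3) * G = 1 := by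
    have := mul_neg_geom_sum (-N3) (n + 1)
    rw [hneg, sub_zero, sub_neg_eq_add] at this
    exact this
  have hfac : 1 + N1 + N2 = (1 + N1) * (1 + N3) := by
    rw [hN3, Matrix.mul_add, ← Matrix.mul_assoc, hinv2, Matrix.one_mul, Matrix.mul_one]
  set W : Matrix C C ℝ := 1 + N1 + N2 with hW
  set V : Matrix C C ℝ := G * (1 - N1) with hV
  have hVW : V * W = 1 := by
    rw [hV, hfac, Matrix.mul_assoc, ← Matrix.mul_assoc (1 - N1), hinv1, Matrix.one_mul, hG1]
  have hWV : W * V = 1 := by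
    rw [hV, hfac, Matrix.mul_assoc, ← Matrix.mul_assoc (1 + N3), hG2, Matrix.one_mul, hinv2]
  have pN1 : Pv dc N1 := Pv_of (j := 0) (by simpa using hgN1)
  have pN2 : Pv dc N2 := Pv_of (j := 1) (by simpa using hgN2)
  have pN3 : Pv dc N3 := Pv_of (j := 1) (by simpa using hgN3)
  have p1 : Pv dc (1 : Matrix C C ℝ) := Pv_of (j := 0) (by simpa using Hg_one dc)
  have p1N1 : Pv dc (1 - N1) := Pv_of (j := 0) (by simpa using hg1)
  have pW : Pv dc W := Pv_add (Pv_add p1 pN1) pN2
  have pneg : Pv dc (-N3) := by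
    intro a b hab
    exact pN3 a b (by simpa using hab)
  have pmul : ∀ A B : Matrix C C ℝ, Pv dc A → Pv dc B → Pv dc (A * B) := by
    intro A B hA hB a c hac
    rw [Matrix.mul_apply] at hac
    obtain ⟨b, -, hb⟩ := Finset.exists_ne_zero_of_sum_ne_zero hac
    exact (hA a b (left_ne_zero_of_mul hb)).trans (hB b c (right_ne_zero_of_mul hb))
  have ppow : ∀ k : ℕ, Pv dc ((-N3) ^ k) := by
    intro k
    induction k with
    | zero => simpa using p1
    | succ k ih =>
      rw [pow_succ]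
      exact pmul _ _ ih pneg
  have pG : Pv dc G := by
    intro a b hab
    rw [hG, Matrix.sum_apply] at hab
    obtain ⟨j, -, hj⟩ := Finset.exists_ne_zero_of_sum_ne_zero hab
    exact ppow j a b hj
  have pV : Pv dc V := pmul _ _ pG p1N1
  have bN1 : Bd N1 (Q ^ (c1 + 6)) := by
    have := ((bd.mul bg).mul bγ).mul bd
    have h1 : Q * Q ^ 4 * Q ^ c1 * Q = Q ^ (c1 + 6) := by ring
    rw [h1] at this
    exact this
  have bN2 : Bd N2 (Q ^ (c1 + 4)) := by
    have := bγ.mul bg
    rw [← pow_add] at this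
    exact this
  have b1N1 : Bd (1 - N1) (Q ^ (c1 + 7)) := by
    refine ((bd_one (α := C)).sub bN1 zero_le_one (hp0 _)).mono (add_nonneg zero_le_one (hp0 _)) ?_
    have h1 := hdb (c1 + 6)
    have h2 := hp1 (c1 + 6)
    linarith
  have b1N1' : Bd (1 + N1) (Q ^ (c1 + 7)) := by
    refine ((bd_one (α := C)).add bN1 zero_le_one (hp0 _)).mono (add_nonneg zero_le_one (hp0 _)) ?_
    have h1 := hdb (c1 + 6)
    have h2 := hp1 (c1 + 6)
    linarith
  have bW : Bd W (Q ^ (c1 + 8)) := by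
    refine (b1N1'.add bN2 (hp0 _) (hp0 _)).mono (add_nonneg (hp0 _) (hp0 _)) ?_
    have h1 := hdb (c1 + 7)
    have h2 := hpm (c1 + 4) (c1 + 7) (by omega)
    linarith
  have bN3 : Bd (-N3) (Q ^ (2 * c1 + 11)) := by
    have := (b1N1.mul bN2).neg
    rw [← pow_add] at this
    have h1 : c1 + 7 + (c1 + 4) = 2 * c1 + 11 := by omega
    rw [h1] at this
    exact this
  have bG : Bd G (Q ^ ((2 * c1 + 11) * (n + 1))) := by
    rw [pow_mul]
    apply bd_geom _ _ _ bN3
    have h1 := hpm 1 (2 * c1 + 11) (by omega)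
    rw [pow_one] at h1
    linarith
  have bV : Bd V (Q ^ ((2 * c1 + 11) * (n + 1)) * Q ^ (c1 + 7)) := bG.mul b1N1
  have bsub : ∀ (A : Matrix C C ℝ) (K : ℝ), Bd A K → Bd (oo dc A) K := by
    intro A K hA
    exact hA.submatrix Subtype.val_injective Subtype.val_injective
  have hc5 : 5 + c1 ≤ (2 * c1 + 11) * (n + 1) + 2 * c1 + 8 := by nlinarith
  refine ⟨S * oo dc W, oo dc V * T, ?_, ?_, ?_, ?_, ?_, ?_⟩
  · have h1 : S * oo dc W * (oo dc V * T) = S * (oo dc W * oo dc V) * T := by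
      simp only [Matrix.mul_assoc]
    rw [h1, ← oo_mul pV, hWV, oo_one, Matrix.mul_one, hST]
  · have h1 : oo dc V * T * (S * oo dc W) = oo dc V * (T * S) * oo dc W := by
      simp only [Matrix.mul_assoc]
    rw [h1, hTS, Matrix.mul_one, ← oo_mul pW, hVW, oo_one]
  · refine (bS.mul (bsub _ _ bW)).mono (mul_nonneg (hp0 _) (hp0 _)) ?_
    rw [← pow_add]
    apply hpm
    nlinarith
  · refine ((bsub _ _ bV).mul bT).mono (mul_nonneg (mul_nonneg (hp0 _) (hp0 _)) (hp0 _)) ?_
    rw [← pow_add, ← pow_add]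
    apply hpm
    omega
  · have h0 : d + θ + h * Γ * f = d + g := by rw [hg, add_assoc]
    rw [h0]
    have pdg : Pc dc (d + g) := Pc_add (Pc_of (j := -1) (by simpa using hgd))
      (Pc_of (j := 0) (by simpa using hgg))
    have h1 : S * oo dc W - eo dc (d + g) = S * (oo dc W - T * eo dc (d + g)) := by
      rw [Matrix.mul_sub, ← Matrix.mul_assoc, hST, Matrix.one_mul]
    rw [h1]
    refine (Matrix.rank_mul_le_right _ _).trans ?_
    refine (rk_trans _ (oo dc ((d + γ) * (d + g))) _).trans ?_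
    have h2 : (oo dc W - oo dc ((d + γ) * (d + g))).rank ≤ 5 * r := by
      rw [← oo_sub, oo]
      refine (rk_sub_mat _ _ _).trans ?_
      rw [rk_comm]
      exact wrk d g γ r hdd (xrk d θ e Γ f h r hdd hk1 hk2 hk3 hk4) hk5
    have h3 : (oo dc ((d + γ) * (d + g)) - T * eo dc (d + g)).rank ≤ c1 * r := by
      rw [← oe_eo pdg, ← Matrix.sub_mul]
      refine (Matrix.rank_mul_le_left _ _).trans ?_
      rw [rk_comm]
      exact hrT
    have h4 : (5 + c1) * r ≤ ((2 * c1 + 11) * (n + 1) + 2 * c1 + 8) * r :=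
      Nat.mul_le_mul_right r hc5
    have h5 : (5 + c1) * r = 5 * r + c1 * r := by ring
    omega
  · intro E
    have h1 : (S * oo dc W).submatrix id E = S.submatrix id E * (oo dc W).submatrix E E :=
      (Matrix.submatrix_mul_equiv _ _ _ _ _).symm
    have h2 : (oo dc W).det = 1 := by
      have p1N3 : Pv dc (1 + N3) := Pv_add p1 pN3
      rw [hfac, oo_mul p1N3, Matrix.det_mul, oo_add, oo_add, oo_one, det_one_add, det_one_add,
        one_mul]
      · refine ⟨n + 1, ?_⟩
        rw [← oo_pow pN3, hN3n, oo_zero]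
      · refine ⟨2, ?_⟩
        rw [← oo_pow pN1, pow_two, hN11, oo_zero]
    rw [h1, Matrix.det_mul, Matrix.det_submatrix_equiv_self, h2, mul_one]

end Pool.Agent.LT.H17
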